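import Pool.Agent.Run7.h711.PL.Tot
import Pool.Agent.Run7.h908.JP.Fib

/-!
# The Tate conjecture for all the quadratic twists of hyperelliptic surfaces over a finite field, and for divisors and
# curves on the products of twisted surfaces

Let `k` be a finite field of odd characteristic with `q` elements and `K = k(t)`. Let `n ≥ 1`, and for `i = 1, ..., n`
let `f_i = x ^ (2 g_i + 1) + ...` be a polynomial over `k[t]`, monic in `x`, `g_i ≥ 1`, without a term in
`x ^ (2 g_i)`, the coefficient of `x ^ j` of degree at most `2 N_i (2 g_i + 1 - j)`, `N_i ≥ 1`, such that the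
discriminants of the `f_i` (with respect to `x`) are squarefree polynomials in `t`, pairwise coprime, and the
polynomials over `k` formed by the coefficients of `t ^ (2 N_i (2 g_i + 1 - j))` in the `f_{i, j}` are irreducible.
If the characteristic is larger than `2 g + 1`, then for every nonzero `Δ` in `k[t]` (for example the product of the
discriminants of the other `f_i`) a positive proportion of all `f` of degree `2 g + 1` is admissible with discriminant
prime to `Δ`.

For a squarefree `D` in `k[t]`, prime to the discriminants, let `X_{i, D}` be a smooth projective model over `k` of the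
surface `D(t) y ^ 2 = f_i(x, t)`, fibred over the line in curves of genus `g_i` with a section, `J_i` the Jacobian of
its generic fibre over `K`, and `V_D = X_{1, D} × ... × X_{n, D}`, a variety of dimension `2 n`. The `X_{i, D}` are
the quadratic twists of the `X_{i, 1}`. Put

`S(D) = ∏_i [J_i(K) : 2 J_i(K)] · #Sha(J_i)[2] = ∏_i 2 ^ (rank J_i(K)) · #Br(X_{i, D})[2]`.

By Shioda, Tate, Grothendieck, Artin and Milne the dimension of `E ^ 1(V_D)` modulo the trivial part (spanned by the
sections and the components of the fibres of the `X_{i, D}`; `H ^ 1 (X_{i, D}) = 0`) is, for `ℓ = 2`, the sum of the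
ranks of the `J_i(K)` and the coranks of the `Sha(J_i)[2 ^ ∞] = Br(X_{i, D})[2 ^ ∞]`. It is at most the binary
logarithm `s(D)` of `S(D)`, and it has the parity of `s(D)`, because the pairing of Cassels and Tate on `Sha(J_i)` is
alternating (Poonen and Stoll; the curves have rational points).

**Theorem.** Fix `k`, the `f_i` and the leading coefficient `u ≠ 0` in `k`, and let `D` run through the squarefree
polynomials of degree `m` with leading coefficient `u` which are prime to the discriminants (at least `c q ^ m` of the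
`q ^ m` polynomials of degree `m` with leading coefficient `u`, `c > 0`), `m → ∞`.
(1) The numbers `[J_i(K) : 2 J_i(K)] · #Sha(J_i)[2]` are powers of two and `J_i(K)` has no element of order two. If such
a number is `1`, then multiplication by two is bijective on `J_i(K)` and the 2-primary part of `Sha(J_i)` is zero.
(2) The proportion of the `D` for which these numbers are `2 ^ (s_1), ..., 2 ^ (s_n)` tends to `α(s_1) ⋯ α(s_n)`, where
`α(s) = α(0) ∏_{i = 1}^s 2 / (2 ^ i - 1)`, `1 / α(0) = ∏_{j ≥ 0} (1 + 2 ^ (-j)) = 4.76846...`, `α(0) = 0.2097...`.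
(3) The proportion of the `D` with `S(D) = 1` tends to `α(0) ^ n`.
(4) The proportion of the `D` for which `S(D)` is a square tends to `1 / 2`.
(5) The proportion of the `D` with `S(D) ≤ 2 ^ (w(m))` tends to `1` for every function `w` which tends to infinity.
(6) The mean of `S(D) ^ j` tends to `((1 + 2) (1 + 4) ... (1 + 2 ^ j)) ^ n`.

**Consequences** (not formalised). If `S(D) = 1`, then the Brauer groups of the `X_{i, D}` are finite (one primary
part is finite: Tate, Milne; Artin and Tate, Kato and Trihan), so `E ^ 1 = A ^ 1` for the `X_{i, D}` and all `ℓ`; then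
`E ^ 1 = A ^ 1` for `V_D` (Tate), and `E ^ (2 n - 1) = A ^ (2 n - 1)` for `V_D` by the hard Lefschetz theorem of
Deligne. So
* `n = 1`: `E ^ j(X_D) = A ^ j(X_D)` for all `j` and `ℓ`, that is Q1 holds for `X_D`, for 20.97 percent of ALL the
  quadratic twists `X_D` of `X_1`, `q` fixed;
* `E ^ j(V_D) = A ^ j(V_D)` for `j = 0, 1, 2 n - 1, 2 n` and all `ℓ` for the proportion `α(0) ^ n` of all `D`;
* for 100 percent of the `D` all but at most `w(m)` (`w → ∞` arbitrarily slowly) of the dimensions of `E ^ 1(V_D)`,
  `ℓ = 2`, are accounted for by the trivial part of `A ^ 1(V_D)`, while the second Betti number is of size `m`;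
* for exactly one half of the `D` the dimension of `E ^ 1(V_D)` modulo the trivial part is even, `ℓ = 2`.

The surfaces have no special structure: the Galois group of `f_i` over `k'(t)`, `k'` the algebraic closure of `k`, is
the symmetric group, and the geometric genus tends to infinity with `m`. The starting results on this page are about
abelian varieties, K3 surfaces and Fermat varieties.

Proof. This is the theorem of the projects PRL (helper286, with helpers 160, 209, 212, 215, 216, 270, 303, 382, 416,
502, 547, 704, 711, 760, 803, 824, 847, 908, 957) and JPL (helper784, with helpers 56, 303, 382, 518, 803, 908, 957) on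
the basis of project TG (helper784 and many others) and the libraries TS (helper875), PJ and JB (helper352) and PP
(helper874), with the exact sequence for the 2-Selmer group (helpers 886, 711) and the count of the admissible `f`
with discriminant prime to `Δ` (helper908, `Pool/Agent/Run7/h908/JP/Fib.lean`).
-/

set_option autoImplicit false
set_option linter.all false

open Polynomial Filter IsDedekindDomain
open scoped Classical Topology

namespace Pool.Agent.Results.MP_950c68_ag.AllTwistsAndProducts

open Pool.Agent.Y713.Jac (J)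
open Pool.Agent.N352.Sha (UniquelyDivisible ShaTrivial)
open Run7.h286.SelDef (ShaTwo twoIndex NoTwoTorsion)

/-! ### The families and the twists -/

section defs

variable {k : Type} [Field k]

/-- The discriminant of the monic polynomial `f` of degree `2 g + 1` in `x` over `k[t]`, up to the sign: the
resultant of `f` and its derivative. -/
noncomputable def discriminant (g : ℕ) (f : k[X][X]) : k[X] :=
  f.resultant (derivative f) (2 * g + 1) (2 * g)

/-- `f = x ^ (2 g + 1) + f_{2 g - 1} x ^ (2 g - 1) + ... + f_0` with `deg f_j ≤ M (2 g + 1 - j)`. -/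
structure HasHeight (g M : ℕ) (f : k[X][X]) : Prop where
  monic : f.Monic
  degree : f.natDegree = 2 * g + 1
  trace : f.coeff (2 * g) = 0
  height : ∀ j ≤ 2 * g, (f.coeff j).natDegree ≤ M * (2 * g + 1 - j)

/-- The reduction of `f` at infinity, the polynomial `x ^ (2 g + 1) + ∑ r_j x ^ j` over `k` where `r_j` is the
coefficient of `t ^ (M (2 g + 1 - j))` in `f_j`. -/
noncomputable def atInfinity (g M : ℕ) (f : k[X][X]) : k[X] :=
  X ^ (2 * g + 1) + ∑ j ∈ Finset.range (2 * g + 1), C ((f.coeff j).coeff (M * (2 * g + 1 - j))) * X ^ j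

/-- The family: squarefree discriminant, irreducible reduction at infinity. -/
structure InFamily (g N : ℕ) (f : k[X][X]) : Prop extends HasHeight g (2 * N) f where
  inert : Irreducible (atInfinity g (2 * N) f)
  squarefree : Squarefree (discriminant g f)

/-- The polynomials `f_1, ..., f_n` are in the families and their discriminants are pairwise coprime. -/
structure Admissible {n : ℕ} (g N : Fin n → ℕ) (f : Fin n → k[X][X]) : Prop where
  genus : ∀ i, 1 ≤ g i
  height : ∀ i, 1 ≤ N i
  family : ∀ i, InFamily (g i) (N i) (f i)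
  coprime : ∀ i j, i ≠ j → IsCoprime (discriminant (g i) (f i)) (discriminant (g j) (f j))

/-- The squarefree polynomials of degree `m` with leading coefficient `u` which are prime to the discriminants of
the `f_i`. -/
def Twists {n : ℕ} (g : Fin n → ℕ) (f : Fin n → k[X][X]) (u : k) (m : ℕ) : Set k[X] :=
  {D | D.leadingCoeff = u ∧ D.natDegree = m ∧ Squarefree D ∧
    ∀ i, IsCoprime D (discriminant (g i) (f i))}

variable (K : Type) [Field K] [Algebra k[X] K]

/-- The monic equation `y ^ 2 = D ^ (2 g + 1) f(x / D)` of the quadratic twist `D y ^ 2 = f(x)` over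
`K = k(t)`, the generic fibre of the surface. -/
noncomputable def twist (f : k[X][X]) (D : k[X]) : K[X] := (f.scaleRoots D).map (algebraMap k[X] K)

variable [IsFractionRing k[X] K]

/-- The number `[J(K) : 2 J(K)] · #Sha(J)[2]` for the Jacobian `J` of `D y ^ 2 = f(x)` over `K = k(t)`. -/
noncomputable def size (f : k[X][X]) (D : k[X]) : ℕ :=
  twoIndex (J 2 (twist K f D) K) * Nat.card (ShaTwo k (twist K f D))

/-- The number `S(D)`, the product of the numbers `[J_i(K) : 2 J_i(K)] · #Sha(J_i)[2]`. -/
noncomputable def total {n : ℕ} (f : Fin n → k[X][X]) (D : k[X]) : ℕ := ∏ i, size K (f i) D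

/-- Properties of the Jacobian `J` of one twist: `J(K)` has no element of order two, `J(K) / 2 J(K)` is finite,
`[J(K) : 2 J(K)] · #Sha(J)[2]` is a power of two, and if it is `1`, then multiplication by two is bijective on `J(K)`
and the 2-primary part of the Tate-Shafarevich group is zero. -/
structure Properties (f : k[X][X]) (D : k[X]) : Prop where
  torsion : NoTwoTorsion (J 2 (twist K f D) K)
  finite : twoIndex (J 2 (twist K f D) K) ≠ 0
  power : ∃ s : ℕ, size K f D = 2 ^ s
  divisible : size K f D = 1 → UniquelyDivisible 2 (J 2 (twist K f D) K)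
  sha : size K f D = 1 → ShaTrivial 2 (twist K f D) k[X]

end defs

/-- The sets `T m` of polynomials have at least `c q ^ m` elements for large `m`, `c > 0`. -/
def ManyIn {k : Type} [Field k] (T : ℕ → Set k[X]) : Prop :=
  ∃ c : ℝ, 0 < c ∧ ∀ᶠ m : ℕ in atTop, c * (Nat.card k : ℝ) ^ m ≤ ((T m).ncard : ℝ)

/-- The proportion of the elements of `T m` with the property `P m` tends to `a`. -/
def ProportionTendsTo {A : Type} (T : ℕ → Set A) (P : ℕ → A → Prop) (a : ℝ) : Prop :=
  Tendsto (fun m => (({D ∈ T m | P m D} : Set A).ncard : ℝ) / ((T m).ncard : ℝ)) atTop (𝓝 a)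

/-- The mean of `φ` over `T m` tends to `a`. -/
def MeanTendsTo {A : Type} (T : ℕ → Set A) (φ : A → ℝ) (a : ℝ) : Prop :=
  Tendsto (fun m => (∑ᶠ D ∈ T m, φ D) / ((T m).ncard : ℝ)) atTop (𝓝 a)

/-- The weights `∏_{i = 1}^s 2 / (2 ^ i - 1)` of the limit law. -/
noncomputable def weight (s : ℕ) : ℝ := ∏ i ∈ Finset.range s, (2 : ℝ) / (2 ^ (i + 1) - 1)

/-- The limit law. -/
noncomputable def α (s : ℕ) : ℝ := weight s / ∑' i, weight i

/-- The joint law of the functions `S_1, ..., S_n` on the sets `T m`, and the law of their product `S`. -/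
structure HasLaw {A : Type} {n : ℕ} (T : ℕ → Set A) (Si : Fin n → A → ℕ) (S : A → ℕ) : Prop where
  joint : ∀ s : Fin n → ℕ, ProportionTendsTo T (fun _ D => ∀ i, Si i D = 2 ^ s i) (∏ i, α (s i))
  trivial : ProportionTendsTo T (fun _ D => S D = 1) (α 0 ^ n)
  parity : ProportionTendsTo T (fun _ D => IsSquare (S D)) (1 / 2)
  almostAll : ∀ w : ℕ → ℕ, Tendsto w atTop atTop → ProportionTendsTo T (fun m D => S D ≤ 2 ^ w m) 1
  moments : ∀ j : ℕ, MeanTendsTo T (fun D => (S D : ℝ) ^ j)
    ((∏ i ∈ Finset.Icc 1 j, (1 + (2 : ℝ) ^ i)) ^ n)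

/-- The numbers: `∑ α(s) = 1`, `1 / α(0) = ∏_{j ≥ 0} (1 + 2 ^ (-j))`, `0.20971 < α(0) < 0.20972`. -/
structure Numbers : Prop where
  sum : HasSum α 1
  prod : HasProd (fun j : ℕ => 1 + (1 / 2 : ℝ) ^ j) (1 / α 0)
  lower : 0.20971 < α 0
  upper : α 0 < 0.20972

/-- A positive proportion of the `f` with `deg f_j ≤ 2 N (2 g + 1 - j)` is in the family and has a discriminant
prime to `Δ`, `N → ∞`. -/
def ManyFamilies {k : Type} [Field k] (g : ℕ) (Δ : k[X]) : Prop :=
  ∃ c : ℝ, 0 < c ∧ ∀ᶠ N : ℕ in atTop, 0 < {f : k[X][X] | HasHeight g (2 * N) f}.ncard ∧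
    c * ({f : k[X][X] | HasHeight g (2 * N) f}.ncard : ℝ) ≤
      ({f : k[X][X] | InFamily g N f ∧ IsCoprime Δ (discriminant g f)}.ncard : ℝ)

/-! ### Comparison with the definitions of the proof -/

theorem hh {k : Type} [Field k] {g M : ℕ} {f : k[X][X]} :
    HasHeight g M f ↔ Run7.h784.JPH.HasHeight g M f :=
  ⟨fun h => ⟨h.monic, h.degree, h.trace, h.height⟩, fun h => ⟨h.monic, h.degree, h.trace, h.height⟩⟩

theorem inFam' {k : Type} [Field k] {g N : ℕ} {f : k[X][X]} :
    InFamily g N f ↔ Run7.h784.JPH.InFamily g N f :=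
  ⟨fun h => ⟨hh.1 h.toHasHeight, h.inert, h.squarefree⟩,
    fun h => ⟨hh.2 h.toHasHeight, h.inert, h.squarefree⟩⟩

theorem inFam {k : Type} [Field k] {g N : ℕ} {f : k[X][X]} :
    InFamily g N f ↔ Run7.h886.TG.InFam g N f :=
  ⟨fun h => ⟨⟨h.monic, h.degree, h.trace, h.height⟩, h.inert, h.squarefree⟩,
    fun h => ⟨⟨h.ht.mon, h.ht.deg, h.ht.tr, h.ht.ht⟩, h.inert, h.sq⟩⟩

theorem numbers : Numbers := by
  obtain ⟨n1, n2, n3, n4, n5⟩ := Run7.h160.PL.num
  have hW : Run7.h286.PL.wt = weight := rfl
  rw [hW] at n1 n2 n3 n4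
  have hs : 4.76845 < ∑' i, weight i ∧ ∑' i, weight i < 4.76847 := by
    rw [abs_lt] at n4
    constructor <;> linarith [n4.1, n4.2]
  have h0 : α 0 = 1 / ∑' i, weight i := by
    unfold α
    rw [show weight 0 = 1 by simp [weight]]
  have hpos : 0 < ∑' i, weight i := by linarith [hs.1]
  refine ⟨Run7.h711.PL.al_sum, ?_, ?_, ?_⟩
  · rw [h0, one_div_one_div]
    exact n3
  · rw [h0, lt_div_iff₀ hpos]
    nlinarith [hs.2]
  · rw [h0, div_lt_iff₀ hpos]
    nlinarith [hs.1]

/-- **Theorem.** Let `k` be a finite field of odd characteristic with `q` elements, `K = k(t)`.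

(A) Let `f_1, ..., f_n` be admissible, `n ≥ 1`, and `u ≠ 0` in `k`, and let `D` run through the squarefree polynomials of
degree `m` with leading coefficient `u` which are prime to the discriminants. There are at least `c q ^ m` of them,
`c > 0`, `m` large. All the Jacobians `J_i` of the curves `D y ^ 2 = f_i(x)` have the properties `Properties`, and for
`m → ∞` the numbers `[J_i(K) : 2 J_i(K)] · #Sha(J_i)[2]` have the joint limit law `α(s_1) ⋯ α(s_n)` on the powers
`2 ^ (s_1), ..., 2 ^ (s_n)`; for their product `S(D)` the proportion of `S(D) = 1` tends to `α(0) ^ n`, the proportion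
of the squares tends to `1 / 2`, the proportion of `S(D) ≤ 2 ^ (w(m))` tends to `1` if `w` tends to infinity, and the mean
of `S(D) ^ j` tends to `((1 + 2) (1 + 4) ... (1 + 2 ^ j)) ^ n`.
(B) The numerical values of the law.
(C) If the characteristic is larger than `2 g + 1`, then for every `Δ ≠ 0` a positive proportion of all `f` with
`deg f_j ≤ 2 N (2 g + 1 - j)` belongs to the family and has a discriminant prime to `Δ`. -/
theorem result (k : Type) [Field k] [Finite k] (h2 : (2 : k) ≠ 0)
    (K : Type) [Field K] [Algebra k[X] K] [IsFractionRing k[X] K] :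
    (∀ (n : ℕ) (g N : Fin n → ℕ) (f : Fin n → k[X][X]), 1 ≤ n → Admissible g N f → ∀ u : k, u ≠ 0 →
      ManyIn (Twists g f u) ∧ (∀ m, ∀ D ∈ Twists g f u m, ∀ i, Properties K (f i) D) ∧
        HasLaw (Twists g f u) (fun i => size K (f i)) (total K f)) ∧
    Numbers ∧
    ∀ g : ℕ, 1 ≤ g → ((2 * g + 1).factorial : k) ≠ 0 → ∀ Δ : k[X], Δ ≠ 0 → ManyFamilies g Δ := by
  refine ⟨fun n g N f hn hf u hu => ?_, numbers, fun g hg hp Δ hΔ => ?_⟩
  · have hF : Run7.h784.JP.JF g N (fun i => Run7.h886.TG.atInf (g i) (2 * N i) (f i)) f :=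
      Run7.h886.PL.jf_of h2 hf.genus hf.height (fun i => inFam.1 (hf.family i)) hf.coprime
    refine ⟨Run7.h711.PL.jmany hF hu, fun m D hD i => ?_, fun s => Run7.h711.PL.jlaw K hn hF hu s,
      Run7.h711.PL.jzero K hn hF hu, Run7.h711.PL.jparity K hn hF hu,
      fun w hw => Run7.h711.PL.jdens K hn hF hu w hw, fun j => Run7.h711.PL.jmoment K hn hF hu j⟩
    obtain ⟨h1, h2, h3, h4⟩ := Run7.h711.PL.jone K hF hu hD i
    exact ⟨h2, h3, ⟨_, h1⟩, fun h => (h4 h).1, fun h => (h4 h).2⟩
  · obtain ⟨c, hc, h⟩ := Run7.h908.JP.Fib.many (k := k) g hg hp Δ hΔ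
    refine ⟨c, hc, ?_⟩
    filter_upwards [h] with N hN
    have e1 : {f : k[X][X] | HasHeight g (2 * N) f} =
        {f : k[X][X] | Run7.h784.JPH.HasHeight g (2 * N) f} := Set.ext fun f => hh
    have e2 : {f : k[X][X] | InFamily g N f ∧ IsCoprime Δ (discriminant g f)} =
        {f : k[X][X] | Run7.h784.JPH.InFamily g N f ∧
          IsCoprime Δ (Run7.h784.JPH.discriminant g f)} :=
      Set.ext fun f => and_congr inFam' Iff.rfl
    rw [e1, e2]
    exact hN

end Pool.Agent.Results.MP_950c68_ag.AllTwistsAndProducts
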