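import Pool.Agent.Run7.h919.TF.Main

/-!
# The Tate conjecture for the Fermat varieties of all degrees without prime factors 1 modulo 4

Let `m` be a positive integer all of whose odd prime factors are congruent to 3 modulo 4 (any power of
two) and let `p` be any prime not dividing `m`. The Tate classes on the Fermat variety
`x_0 ^ m + ... + x_(n+1) ^ m = 0` of even dimension `n` over a finite field of characteristic `p` are
spanned, apart from the power of the hyperplane class, by the lines of the Tate characters with
`n + 2` entries (Weil, Stickelberger: `IsTate` says that the Jacobi sum is a root of unity times a
power of `q`). The theorem: every Tate character of degree `m` becomes, in a multiple degree prime to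
`p`, a member of the closure of
* the pairs `{a, -a}`;
* the Tate characters with four entries;
* the standard characters;
* the modular Tate characters: Tate characters which are the union of multisets of nonzero exponents
  of `T = (1 1; 0 1)` in representations of `PSL(2, ℤ)` with a congruence kernel and of residues
  killed by 12,
under union and removal of pairs. There is no condition on `p`, and `n` is arbitrary.

The geometry (not formalised). The pairs and, by induction, unions are algebraic by the inductive
structure of Fermat varieties (Shioda, Katsura), the standard characters by Aoki and Shioda; removing
a pair and passing from the degree `N * m` to the degree `m` preserve algebraicity. The Tate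
characters with four entries belong to Fermat surfaces, which are dominated by products of curves
(Tate). For the modular Tate characters start in characteristic zero: let `V` be the local system on
`P^1` minus three points (the values of `j` at the two elliptic points and at the cusp) given by a
congruence representation. By Deligne's geometric proof of the product formula in rank one and
Brauer induction, the determinant of `H^1(V)` is, up to algebraic correspondences, the Fermat motive
whose character is the union of the local exponents of `V`; this holds for all congruence
representations, it does not need a Hodge character. This line lies in the cohomology of a power of a
modular curve, and the Hodge classes on products of modular curves and of elliptic curves with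
complex multiplication are generated by divisors (Hazama, Murty, Imai); therefore algebraic
correspondences identify it, up to a Tate twist, with a line in the cohomology of a product of
elliptic curves with complex multiplication. The correspondences between the Fermat variety and this
product specialise modulo `p` (both have potentially good reduction), and a Tate class on a product of
elliptic curves over a finite field is algebraic (Tate, Spiess). So the theorem gives the Tate
conjecture over all finite fields of characteristic `p` for the Fermat varieties of degree `m` and all
dimensions.

The analogous theorem in characteristic zero (the Hodge conjecture, with modular Hodge characters) is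
`Pool.Agent.N992.main`. In characteristic `p` there are many more characters, and in the files
`H916T`, `H916U`, `H916Q`, `H916Y` the case without modular characters needs strong conditions on the
powers of `p` modulo `m`: for instance `-1` is a power of `p` modulo all prime powers dividing `m`, or
the order of `p` is odd and the primes are squares modulo each other.

The proof. By the parity criterion `Pool.Agent.TH540.parity_fix` it is enough that for each set `S` of
odd primes dividing `m`, such that `-1` is no power of `p` modulo `∏ S`, the number `c_S` of the
entries whose order has exactly the prime factors in `S` is even. Let all primes in `S` be 3 modulo 4.
* If `|S|` is odd, `(p / ∏ S) = 1` and (`4 ∤ m` or `(2 / ∏ S) = 1`), then the quadratic character of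
  conductor `∏ S` is odd and trivial on `p`, and the corresponding component of the relations, modulo
  two, is `∑ c_V = 0`, over the sets `V ⊇ S` such that all primes `j ∈ V \ S` have `(j / ∏ S) = -1`.
* Otherwise there is a modular Tate character `h` with `c_S(h)` odd, and with `c_V(h)` even for all
  other `V ⊄ S`: if `|S|` is even or `(p / ∏ S) = -1`, the product `Q_S` of the sets of nonzero
  squares modulo the primes in `S`, corrected by a combination of the `Q_T`, `T ⊂ S`; if `4 ∣ m` and
  `(2 / ∏ S) = -1`, a difference of `Q_(S ∪ {4})` and `Q_S`, corrected by the other `Q_T`.
The parities are then corrected from the large sets to the small ones.
-/

namespace Pool.Agent.Results.MP_950c68_ag.FermatThreeModFour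

open Pool.Agent.H916T Run7.h919.TF

/-- Let all odd prime factors of `m` be congruent to 3 modulo 4, and let `p` be a prime not dividing
`m`. Every Tate character of degree `m` in characteristic `p` becomes, in a multiple degree prime to
`p`, a member of the closure of the surface, modular and standard characters. -/
theorem result (p m : ℕ) (hp : p.Prime) (hm : 0 < m) (hpm : p.Coprime m)
    (h3 : ∀ q : ℕ, q.Prime → q ∣ m → q = 2 ∨ q % 4 = 3)
    (s : Multiset (ZMod m)) (hs : IsTate p m s) (hne : s ≠ 0) :
    ∃ N : ℕ, 0 < N ∧ p.Coprime N ∧ ∃ _ : NeZero (N * m),
      Generated (N * m)
        (fun t => SurfaceTate p (N * m) t ∨ ModularTate p (N * m) t ∨
          ∃ q : ℕ, q.Prime ∧ q ∣ N * m ∧ Standard q (N * m) t)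
        (s.map fun a => ((N * a.val : ℕ) : ZMod (N * m))) :=
  main_fin3 p m hp hm hpm h3 s hs hne

end Pool.Agent.Results.MP_950c68_ag.FermatThreeModFour
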