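import Pool.Agent.Run7.h306.TC10

/-!
# The Tate conjecture for products of arbitrary varieties with Fermat varieties, in every positive
# characteristic

Let `F₀` be a finite field, or more generally a finitely generated field of characteristic `c > 0`, with
the separable closure `k` and the Galois group `Γ`. As in other starting files on the Tate conjecture
(`MP_0d42ed_ag.HodgeTateTowers`), `W` is the `ℓ`-adic cohomology of the varieties over `k`, with
coefficients in an algebraic closure of `ℚ_ℓ` (a field isomorphic to `ℂ` by `σ`), `GVar W Γ` are the
varieties with the action of `Γ` on the cohomology, `χ` is the inverse of the cyclotomic character, and
`Tate χ Z` is the Tate conjecture for `Z` over all finite extensions of `F₀`: for all `j`, each class `x`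
in `H^(2j)(Z)` with `g x = χ(g)^j x` for all `g` in a subgroup of finite index of `Γ` (for a finite field:
with `F^s x = q^(js) x` for some `s > 0`) is a linear combination of classes of algebraic cycles of
codimension `j`.

**Theorem.** Let `Z` be **any** smooth projective variety over `F₀`, with Betti numbers at most `B`. Let
`V` be a product of Fermat varieties over `F₀`, of degrees `m_j` prime to `c` and dimensions `n_j`, and let
`M = ∑ (n_j + 2)` be the number of the coordinates. Suppose that for every divisor `d` of one of the `m_j`

  `M B ^ 2 τ(d) ^ 2 (1 + log d) < √d`, or `-1` is a power of `c` modulo `d`

(`τ(d)` is the number of divisors of `d`; the second condition holds for `d = 1, 2`).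

1. Suppose that `H^i(Z) = 0` for all odd `i`, or that all `n_j` are even, or that `c` has odd order modulo
   all `m_j`. Then **the Tate conjecture holds for `V × Z` if and only if it holds for `V` and for `Z`.**
2. Suppose that all `m_j` are powers of prime numbers and that all `n_j` are even, or that `c` has odd
   order modulo all `m_j`. Then **the Tate conjecture holds for `V × Z` if and only if it holds for `Z`.**

So for prime degrees `p` the condition is `4 M B ^ 2 (1 + log p) < √p`, and in general it holds if no
divisor of the `m_j` different from `1` and `2` is smaller than `C_ε (M B ^ 2) ^ (2 + ε)`. It is independent
of the characteristic `c`, of the finite field and of the dimension of `Z`, and there is no condition on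
the operation of Frobenius on the cohomology of `Z`. In particular the Tate conjecture holds for all
products of Fermat varieties of large prime power degrees as in 2. with the varieties `Z` for which it
is known, for example abelian varieties of dimension at most three, K3 surfaces, products of elliptic
curves.

The condition in 1. on the parity is necessary for an equivalence of this form: if `V` and `Z` have
supersingular classes of odd degree, their products give Tate classes on `V × Z` which do not come from
Tate classes on `V` and `Z`.

## The hypotheses

* `F` is a Frobenius element at a place of good reduction of `Z` and `V` (a closed point of a model; for a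
  finite field `F₀` a power of the Frobenius automorphism) with the residue field `κ`, with `q` elements,
  containing the roots of unity of orders `m_j`.
* `IsBounded`: the theorems of Deligne for `Z` (rational characteristic polynomials, absolute values), and
  the theorem that the slopes of Frobenius on `H^i(Z)` are rational numbers with denominators at most
  the Betti number `b_i` (Katz, Messing: the eigenvalues are those on the crystalline cohomology;
  Dieudonné, Manin: the multiplicity of a slope is divisible by its denominator).
* `IsFermatProduct`: the theorem of Weil that the eigenvalues of `F` on the lines `V(a)` of the cohomology
  of the Fermat varieties are Jacobi sums (up to roots of unity, so that the equations may have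
  coefficients); the Fermat varieties are defined over a finite field, so that `Γ` operates through the
  procyclic Galois group of a finite field (`IsConstant`); the linear sections are algebraic; and the
  theorems of Tate (on divisors on products of curves), Shioda and Aoki that for prime power degrees
  the lines which are generated by Tate characters of surfaces, pairs and standard characters
  (`IsTateGenerated`) consist of algebraic classes. The last part is used only for 2.
* `IsGalois`: the formal properties of the operation of `Γ`.

## The proof

Let the line of a label `b` contribute to a Tate class on `V × Z`. Its Jacobi sum is up to a root of unity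
and a power of `q` the inverse of an eigenvalue `α` of `F` on `H^i(Z)`. By Stickelberger's theorem (in the
form of the starting files) the deviation `T(t)` of the slope of the Jacobi sum of `t b` from the
mean is the sum of the means over the powers of `c` of the numbers `1 - 2 ⟨t a / m⟩`, where `a` runs through
the entries of `b`. It is invariant under a subgroup `H` of index at most `B`, since `α` has at
most `B` conjugates, so it is also the sum of the means over cosets of `H`. Finite Fourier analysis and
the bound `|∑ exp (2 π i r u / d)| ≤ √d` (`u` in a subgroup of the units modulo `d`, `r` a unit) show that
these means are small for large `d`: `|T(t)| < 1 / B`. On the other hand `B T(t)` is at least `1` in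
absolute value or zero, since the slopes of `α` have denominators at most `B`. So `T = 0`. Now
Kronecker's theorem shows that the Jacobi sum is a root of unity times a power of `√q`, and the line of
`b` consists of Tate classes, if the degree is even. For prime power degrees such lines are algebraic
(starting files: every Tate character of prime power degree is generated, after raising the degree, by
characters of surfaces and standard characters).
-/

set_option autoImplicit false

open CategoryTheory AlgebraicGeometry

namespace Pool.Agent.Results.MP_950c68_ag.FermatTimesEveryCharacteristic

open Pool.Agent.H914 Pool.Agent.TH125.Gal Run7.h306.TF Run7.h306.TC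

/-- **The Tate conjecture for `V × Z` is equivalent to the Tate conjecture for `V` and `Z`** (the first
part), and to the Tate conjecture for `Z` if the degrees are powers of prime numbers (the second part),
for products `V` of Fermat varieties in characteristic `c` and all varieties `Z` with Betti numbers at
most `B`, if for each divisor `d` of the degrees `-1` is a power of `c` modulo `d` or
`M B ^ 2 τ(d) ^ 2 (1 + log d) < √d`. -/
theorem result {k : Type} [Field k] {𝒱 : VarClass k} {ops : CycleOps 𝒱}
    {W : WeilCohomology.{0, 0} ops} (σ : W.K ≃+* ℂ) {Γ : Type} [Group Γ] (χ : Γ →* W.Kˣ) (F : Γ)
    (κ : Type) [Field κ] [Fintype κ] (c : ℕ) [Fact c.Prime] [CharP κ c] (B : ℕ) (J : Type)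
    [Fintype J] (m n : J → ℕ) (V Z Y : GVar W Γ)
    (hm : Run7.h306.TC.AreLarge c B (∑ j, (n j + 2)) m)
    (hY : Run7.h306.TC.IsFermatTimes c σ χ F κ B m n V Z Y) :
    ((IsEven Z ∨ HaveParity c m n) → (Tate χ Y ↔ Tate χ V ∧ Tate χ Z)) ∧
      (HaveParity c m n → (∀ j, IsPrimePow (m j)) → (Tate χ Y ↔ Tate χ Z)) :=
  main σ χ F κ c B J m n V Z Y hm hY

end Pool.Agent.Results.MP_950c68_ag.FermatTimesEveryCharacteristic
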