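import Pool.Agent.Run7.h142.GT.Times
import Pool.Agent.Run7.h142.GT.Gens
import Pool.Agent.Run7.h142.LT.Disc

/-!
# The Tate conjecture for all products of given varieties over finite fields is equivalent to the Tate
# conjecture for finitely many products: generators of the lattice of relations between the valuations

Let `X j` (`j < s`) be smooth projective varieties over an algebraic closure of the field with `p`
elements whose cohomology is generated, as an algebra, by algebraic cycles and by the cohomology in one
degree `d j`, for instance abelian varieties (`d j = 1`), curves (`d j = 1`), K3 surfaces and cubic
fourfolds (after a twist: `d j = 2`, `4`), complete intersections. The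
Frobenius eigenvalues in the degree `d j` which do not come from algebraic cycles are, up to roots of
unity, `q ^ (d j / 2)` times roots of the conjugates of one number `α j` in a CM field `E (f j)`; all
complex absolute values of `α j` are one (`HaveWeilNumbers`, `IsPNumber`; `α j = π ^ 2 / q` for an
abelian variety with the Weil number `π`). The fields `E k` are finitely many CM fields. Any number of
the `α j` may belong to the same field, and the Newton polygons of the `X j` are arbitrary. We assume
only that the fields `E k` have no rigid pairs (`NoRigidPairsOver`): for an embedding `x` of `E k` and an
embedding `y` of `E l` which is not `x` or its complex conjugate, some automorphism of the algebraic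
closure of `ℚ` fixes `x` and maps `y` to its complex conjugate. This is true for one imaginary quadratic
field, for different quadratic fields, and for generic CM fields of any degree; see the fifth part.

The `p`-adic valuations of the numbers `α j` which belong to `E k`, normalized by the degree of the
field of definition, are functions on the set of the embeddings of `E k` (`slope`). The linear
relations with integral coefficients between them form the group `relations p α n k`. A relation
`c` has the degree `deg c = ∑ |c j| d j`, and it has the test product `X_c`, the product of `|c j|`
copies of each `X j`. The relations of odd degree have test products only in pairs.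

**Theorem.** Let `B k` be any set of generators of the group `relations p α n k`.
1. The set `B k` can be chosen with `# {j | f j = k} - r k` elements, where `r k` is the rank of the
   normalized valuations of the numbers in `E k`.
2. The Tate conjecture and the semisimplicity of Frobenius hold in all codimensions for **all** products
   of copies of the `X j` (with any multiplicities, and also with varieties all of whose cohomology is
   algebraic) **if and only if** the Tate conjecture holds for `X j × X j` in codimension `d j`, for the
   test products `X_c` in codimension `deg c / 2`, for all `c ∈ B k` of even degree, and for the
   `X_c × X_c'`, in codimension `(deg c + deg c') / 2`, for all `c ∈ B k`, `c' ∈ B k'` of odd degree.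
3. If the degrees of all `c ∈ B k` are even and the Tate conjecture holds for these products then for
   **all** products `Z` as in 2. and **all** smooth projective varieties `U` whose slopes are
   determined by a field `L` (for instance the field generated by the Frobenius eigenvalues of `U`
   and their conjugates), if there are no rigid pairs over `L`, the Tate conjecture for `Z × U` in
   codimension `m` is equivalent to the Tate conjecture for `U` in the codimensions `m - i` for which
   `Z` has a homologically nontrivial cycle of codimension `i`; similarly with semisimplicity.
4. The degrees of all relations are even if all `d j` are even, or if for each `k` there is one embedding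
   of `E k` for which the valuations of the Weil numbers in `E k` are integers (`v (q) = 1`).
5. There are no rigid pairs over `L` if for each `k` some prime divides the discriminant of `E k`, but
   its square does not divide the product of the discriminants of all the fields and of a number field
   whose conjugates generate a field that contains `L`.

So for `s` varieties at most `s` tests are necessary besides the `X j × X j`: not more than the
number of the varieties minus the rank. There are infinitely many products, and the algebra of
Tate classes on them is not generated by those on the test products: in general the semigroup of
all the monomials in the eigenvalues which give Tate classes needs many more generators than the group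
of the relations. The test products are necessary for a trivial reason.

Examples. If the valuations are linearly independent, or if the group of relations is generated by
relations of degree `2` for abelian varieties, then all tests are known (Tate). This contains: the
products of powers of abelian varieties with different fields (one Weil number for each field); the
starting results and those of `SeveralWeilNumbers`. If `A` is an abelian threefold whose Weil number
`π` belongs to an imaginary quadratic field `E` (slopes `1/3`, `2/3`) and `C` is an ordinary elliptic
curve with the same field `E`, then the valuations are `1/6` and `1/2` at the place of `E`; one relation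
`(3, -1)` generates the group and so the Tate conjecture for all products `A ^ a × C ^ b` is equivalent
to the Tate conjecture in codimension two on the product of `A`, `A`, `A` and `C`. For simple abelian
varieties with Weil numbers in one imaginary quadratic field in which `p` splits (of any number and
of any dimensions) the rank is one. For K3 surfaces of finite height the valuations are nonzero
at one place and its conjugate only; so the group of relations is generated by relations between two
surfaces with the same field and the same place, and the Tate conjecture for all products of K3
surfaces (without rigid pairs) follows from the Tate conjecture for products of copies of two surfaces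
of that kind.

The proof. As in `SeveralK3Surfaces` (which this theorem replaces), by an average over the automorphisms
which map a given embedding to itself or to its complex conjugate, each Tate class on a product is a
combination of eigenvectors such that for each embedding `σ` of `E k` the differences `c j` of the numbers
of the eigenvalues which belong to `σ (α j)` and to its complex conjugate form a relation for `E k`. By
the test products the corresponding words in the generators are combinations of algebraic classes.
The combinations of generators with integral coefficients produce words with many pairs of conjugate
eigenvalues, which have to be cancelled; a word `w` is algebraic if `w x x'` is algebraic for a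
dual pair `x`, `x'`: the class `x x'` is algebraic since Tate holds for `X j × X j`, and its dual
class on `X j × X j` has a nonzero product of the top degree with it. To have room for it one
multiplies with new factors `X j`.

Known before: powers of one abelian variety and products with independent fields (Zarhin, Lenstra and
Zarhin, and the starting files); Milne, Lefschetz motives and the Tate conjecture (1999) and The Tate
conjecture for certain abelian varieties over finite fields (2001): if the algebraic classes on the
powers of an abelian variety `A` define the group `P(A)` of Frobenius then the Tate conjecture holds for
the powers of `A`. The computation of the relations, the numbers of generators, other varieties than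
abelian ones and the products with arbitrary varieties are new as far as I know. (The passage from
relations to cycles is adapted from the starting files `TH121/KT` and `Y138`.)
-/

set_option autoImplicit false

open CategoryTheory AlgebraicGeometry NumberField

universe u v

namespace Pool.Agent.Results.MP_950c68_ag.RelationLattice

open Pool.Agent.H914 Pool.Agent.W534 Pool.Agent.TH132.A Pool.Agent.TH121.KT
  Pool.Agent.Run7.h142.LT Pool.Agent.Run7.h142.GT VarClass Obj WeilCohomology

/-- **The Tate conjecture for all products of given varieties is the Tate conjecture for the test
products of generators of the groups of relations between the valuations.** -/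
theorem result :
    (∀ (p : ℕ) [Fact p.Prime] (κ : Type) (E : κ → Type) [∀ k, Field (E k)] (s : ℕ)
      (f : Fin s → κ) (α : ∀ j, E (f j)) (n : Fin s → ℕ),
      ∃ B : κ → Finset (Fin s → ℤ),
        (∀ k, AddSubgroup.closure (B k : Set (Fin s → ℤ)) = relations p α n k) ∧
        ∀ k, (B k).card + slopeRank p α n k = Nat.card {j // f j = k}) ∧
    (∀ {k : Type u} [Field k] {𝒱 : VarClass k} {ops : CycleOps 𝒱}
      (W : WeilCohomology.{u, v} ops) [IsAlgClosed W.K] (p : ℕ) [Fact p.Prime]
      (Φ : FrobSystem W p) (κ : Type) [Fintype κ] (E : κ → Type) [∀ k, Field (E k)]
      [∀ k, NumberField (E k)] [∀ k, IsCMField (E k)] (s : ℕ) (f : Fin s → κ)
      (α : ∀ j, E (f j)) (X : Fin s → 𝒱.Obj) (d e : Fin s → ℕ) (B : κ → Set (Fin s → ℤ)),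
      NoRigidPairsOver E ⊥ → IsPNumber p α d →
      HaveWeilNumbers (K := fun j => E (f j)) Φ α X d e →
      (∀ k, AddSubgroup.closure (B k) = relations p α (degs Φ X e) k) →
        ((∀ Z, IsProduct W X Z → ∀ b m, TateTo Φ Z b m) ↔ TateForGenerators Φ X d B)) ∧
    (∀ {k : Type u} [Field k] {𝒱 : VarClass k} {ops : CycleOps 𝒱}
      (W : WeilCohomology.{u, v} ops) [IsAlgClosed W.K] (p : ℕ) [Fact p.Prime]
      (Φ : FrobSystem W p) (κ : Type) [Fintype κ] (E : κ → Type) [∀ k, Field (E k)]
      [∀ k, NumberField (E k)] [∀ k, IsCMField (E k)] (s : ℕ) (f : Fin s → κ)
      (α : ∀ j, E (f j)) (X : Fin s → 𝒱.Obj) (d e : Fin s → ℕ) (B : κ → Set (Fin s → ℤ))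
      (L : IntermediateField ℚ (AlgebraicClosure ℚ)),
      NoRigidPairsOver E L → IsPNumber p α d →
      HaveWeilNumbers (K := fun j => E (f j)) Φ α X d e →
      (∀ k, AddSubgroup.closure (B k) = relations p α (degs Φ X e) k) →
      (∀ k, ∀ c ∈ B k, Even (degOf d c)) → TateForGenerators Φ X d B →
        ∀ Z, IsProduct W X Z → ∀ (ι : AlgebraicClosure ℚ →+* PadicAlgCl p) (U : 𝒱.Obj),
        FrobeniusSlopes Φ ι L U → ∀ b m,
        (TateTo Φ (Z.prod U) b m ↔ ∀ i ≤ m, HasCycle W Z i → TateTo Φ U b (m - i))) ∧
    (∀ (p : ℕ) [Fact p.Prime] (κ : Type) (E : κ → Type) [∀ k, Field (E k)] (s : ℕ)
      (f : Fin s → κ) (α : ∀ j, E (f j)) (d n : Fin s → ℕ),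
      ((∀ j, Even (d j)) ∨ HasIntegralPlaces p α d n) →
        ∀ k, ∀ c ∈ relations p α n k, Even (degOf d c)) ∧
    ∀ (κ : Type) [Fintype κ] (E : κ → Type) [∀ k, Field (E k)] [∀ k, NumberField (E k)]
      [∀ k, IsCMField (E k)] (F : Type) [Field F] [NumberField F],
      (∀ k, ∃ ℓ : ℕ, ℓ.Prime ∧ (ℓ : ℤ) ∣ discr (E k) ∧
        ¬ (ℓ : ℤ) ^ 2 ∣ discr F * ∏ l, discr (E l)) →
      ∀ L ≤ IntermediateField.normalClosure ℚ F (AlgebraicClosure ℚ), NoRigidPairsOver E L := by
  refine ⟨?_, ?_, ?_, ?_, ?_⟩
  · intro p _ κ E _ s f α n
    exact exists_generators p α n
  · intro k _ 𝒱 ops W _ p _ Φ κ _ E _ _ _ s f α X d e B hE hα hX hB
    exact tate_products_iff hX hα hE hB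
  · intro k _ 𝒱 ops W _ p _ Φ κ _ E _ _ _ s f α X d e B L hE hα hX hB hev hT Z hZ ι U hU b m
    exact tate_times hX hα hE hT hB hev hZ hU b m
  · intro p _ κ E _ s f α d n h k c hc
    rcases h with h | h
    · exact even_of_all h c
    · exact even_of_places h k c hc
  · intro κ _ E _ _ _ F _ _ h L hL
    exact noRigidPairsOver_of_discr F h hL

end Pool.Agent.Results.MP_950c68_ag.RelationLattice
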